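import Mathlib

/-!
# The plane diffeomorphism used in the counterexample

With `t = exp s`, the map `(Z, s) ↦ (t - 1/t - Z^2, Z * C Z t)`, where
`C Z t = 2 t (1+t) / (Z^2 + t + 1/t)`, is a bijection of the plane with everywhere invertible
derivative, so its inverse is continuously differentiable.
-/

set_option autoImplicit false

namespace Pool.Agent.Zk55.Ch

open Filter Topology

/-- the function `c(Z,t)` -/
noncomputable def C (Z t : ℝ) : ℝ := 2 * t * (1 + t) / (Z ^ 2 + t + 1 / t)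

/-- its partial derivative in `Z` -/
noncomputable def CZ (Z t : ℝ) : ℝ := -(4 * t * (1 + t) * Z) / (Z ^ 2 + t + 1 / t) ^ 2

/-- its partial derivative in `t` -/
noncomputable def Ct (Z t : ℝ) : ℝ :=
  2 * ((1 + 2 * t) * Z ^ 2 + t ^ 2 + 3 + 2 / t) / (Z ^ 2 + t + 1 / t) ^ 2

lemma S_pos (Z t : ℝ) (ht : 0 < t) : 0 < Z ^ 2 + t + 1 / t := by positivity

lemma hasDerivAt_inv' {t : ℝ → ℝ} {v τ : ℝ} (ht : HasDerivAt t v τ)
    (h0 : 0 < t τ) : HasDerivAt (fun r => 1 / t r) (-v / (t τ) ^ 2) τ := by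
  have := ht.fun_inv h0.ne'
  simpa [one_div] using this

lemma hasDerivAt_sq' {Z : ℝ → ℝ} {u τ : ℝ} (hZ : HasDerivAt Z u τ) :
    HasDerivAt (fun r => (Z r) ^ 2) (2 * Z τ * u) τ := by
  have := hZ.fun_pow 2
  simpa using this

lemma hasDerivAt_C {Z t : ℝ → ℝ} {u v τ : ℝ} (hZ : HasDerivAt Z u τ) (ht : HasDerivAt t v τ)
    (h0 : 0 < t τ) :
    HasDerivAt (fun r => C (Z r) (t r)) (CZ (Z τ) (t τ) * u + Ct (Z τ) (t τ) * v) τ := by
  have hS := S_pos (Z τ) (t τ) h0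
  have h1 : HasDerivAt (fun r => 2 * t r * (1 + t r)) (2 * v * (1 + t τ) + 2 * t τ * v) τ :=
    (ht.const_mul 2).mul (ht.const_add 1)
  have h2 : HasDerivAt (fun r => (Z r) ^ 2 + t r + 1 / t r)
      (2 * Z τ * u + v + -v / (t τ) ^ 2) τ :=
    ((hasDerivAt_sq' hZ).add ht).add (hasDerivAt_inv' ht h0)
  have h5 := h1.div h2 hS.ne'
  refine h5.congr_deriv ?_
  unfold CZ Ct
  have h0' := h0.ne'
  have hS' := hS.ne'
  field_simp
  ring

/-- the positivity behind everything -/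
lemma key_pos (Z t : ℝ) (ht : 0 < t) :
    0 < C Z t + Z * (CZ Z t + Ct Z t * (2 * Z * t / (t + 1 / t))) := by
  have hS := S_pos Z t ht
  have hA : 0 < t + 1 / t := by positivity
  have h1 : C Z t + Z * (CZ Z t + Ct Z t * (2 * Z * t / (t + 1 / t))) =
      (2 * t / ((Z ^ 2 + t + 1 / t) ^ 2 * (t + 1 / t))) *
        ((1 + t) * (t + 1 / t) ^ 2 + 2 * (1 + 2 * t) * Z ^ 4 +
          Z ^ 2 * (t ^ 2 - t + 5 + 3 / t)) := by
    unfold C CZ Ct
    field_simp
    ring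
  rw [h1]
  have h2 : 0 < t ^ 2 - t + 5 := by nlinarith [sq_nonneg (t - 1)]
  have h3 : 0 < t ^ 2 - t + 5 + 3 / t := by positivity
  positivity

/-- for fixed `a`, the value of `s` with `t - 1/t = a + Z^2` -/
noncomputable def sOf (a Z : ℝ) : ℝ := Real.arsinh ((a + Z ^ 2) / 2)

lemma exp_sub_inv (s : ℝ) : Real.exp s - 1 / Real.exp s = 2 * Real.sinh s := by
  rw [Real.sinh_eq, Real.exp_neg]
  ring

lemma exp_add_inv (s : ℝ) : Real.exp s + 1 / Real.exp s = 2 * Real.cosh s := by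
  rw [Real.cosh_eq, Real.exp_neg]
  ring

lemma sOf_spec (a Z : ℝ) : Real.exp (sOf a Z) - 1 / Real.exp (sOf a Z) - Z ^ 2 = a := by
  rw [exp_sub_inv, sOf, Real.sinh_arsinh]
  ring

lemma eq_sOf {a Z s : ℝ} (h : Real.exp s - 1 / Real.exp s - Z ^ 2 = a) : s = sOf a Z := by
  rw [exp_sub_inv] at h
  unfold sOf
  rw [← Real.arsinh_sinh s]
  congr 1
  linarith

lemma hasDerivAt_expsOf (a Z : ℝ) :
    HasDerivAt (fun Z => Real.exp (sOf a Z))
      (2 * Z * Real.exp (sOf a Z) / (Real.exp (sOf a Z) + 1 / Real.exp (sOf a Z))) Z := by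
  have h1 : HasDerivAt (fun Z : ℝ => (a + Z ^ 2) / 2) Z Z := by
    have := ((hasDerivAt_sq' (hasDerivAt_id Z)).const_add a).div_const 2
    refine this.congr_deriv ?_
    simp
  have h2 := (Real.hasDerivAt_arsinh ((a + Z ^ 2) / 2)).comp Z h1
  have h3 := h2.exp
  refine h3.congr_deriv ?_
  rw [exp_add_inv]
  unfold sOf
  rw [Real.cosh_arsinh]
  have : 0 < √(1 + ((a + Z ^ 2) / 2) ^ 2) := by positivity
  simp only [Function.comp]
  field_simp

/-- the function `b` of `Z` for fixed `a` -/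
noncomputable def g (a Z : ℝ) : ℝ := Z * C Z (Real.exp (sOf a Z))

lemma hasDerivAt_g (a Z : ℝ) : HasDerivAt (g a)
    (C Z (Real.exp (sOf a Z)) + Z * (CZ Z (Real.exp (sOf a Z)) + Ct Z (Real.exp (sOf a Z)) *
      (2 * Z * Real.exp (sOf a Z) / (Real.exp (sOf a Z) + 1 / Real.exp (sOf a Z))))) Z := by
  have h := (hasDerivAt_id Z).mul (hasDerivAt_C (hasDerivAt_id Z) (hasDerivAt_expsOf a Z)
    (Real.exp_pos _))
  refine h.congr_deriv ?_
  simp

lemma strictMono_g (a : ℝ) : StrictMono (g a) := by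
  apply strictMono_of_deriv_pos
  intro Z
  rw [(hasDerivAt_g a Z).deriv]
  exact key_pos _ _ (Real.exp_pos _)

lemma g_neg (a Z : ℝ) : g a (-Z) = - g a Z := by
  have : sOf a (-Z) = sOf a Z := by unfold sOf; rw [neg_sq]
  unfold g C
  rw [this, neg_sq]
  ring

lemma g_ge (a Z : ℝ) (hZ : 0 ≤ Z) (h1 : |a| + 1 ≤ a + Z ^ 2) : 2 / 3 * Z ≤ g a Z := by
  have hs := sOf_spec a Z
  unfold g C
  set t := Real.exp (sOf a Z) with ht
  have htp : 0 < t := Real.exp_pos _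
  have hi : 0 < 1 / t := by positivity
  have h2 : |a| + 1 ≤ t := by linarith
  have h3 : Z ^ 2 + t + 1 / t = 2 * t - a := by linarith
  rw [h3]
  have ha := abs_le.1 (le_refl |a|)
  have h4 : 0 < 2 * t - a := by rw [← h3]; positivity
  have h5 : 2 / 3 ≤ 2 * t * (1 + t) / (2 * t - a) := by
    rw [le_div_iff₀ h4]
    nlinarith
  nlinarith

lemma tendsto_g_top (a : ℝ) : Tendsto (g a) atTop atTop := by
  have h1 : Tendsto (fun Z : ℝ => 2 / 3 * Z) atTop atTop :=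
    tendsto_id.const_mul_atTop (by norm_num)
  refine tendsto_atTop_mono' _ ?_ h1
  filter_upwards [eventually_ge_atTop (2 * |a| + 1)] with Z hZ
  have ha := abs_nonneg a
  have ha' := neg_abs_le a
  apply g_ge a Z (by linarith)
  nlinarith

lemma continuous_g (a : ℝ) : Continuous (g a) :=
  continuous_iff_continuousAt.2 fun Z => (hasDerivAt_g a Z).continuousAt

lemma surjective_g (a : ℝ) : Function.Surjective (g a) := by
  apply (continuous_g a).surjective (tendsto_g_top a)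
  have h : g a = fun Z => - g a (-Z) := by
    funext Z
    rw [g_neg, neg_neg]
  rw [h]
  exact tendsto_neg_atTop_atBot.comp ((tendsto_g_top a).comp tendsto_neg_atBot_atTop)

/-- the plane map -/
noncomputable def Θ (p : ℝ × ℝ) : ℝ × ℝ :=
  (Real.exp p.2 - 1 / Real.exp p.2 - p.1 ^ 2, p.1 * C p.1 (Real.exp p.2))

lemma bijective_Θ : Function.Bijective Θ := by
  constructor
  · rintro ⟨Z1, s1⟩ ⟨Z2, s2⟩ h
    simp only [Θ, Prod.mk.injEq] at h
    obtain ⟨h1, h2⟩ := h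
    have e1 := eq_sOf h1
    have e2 := eq_sOf (rfl : Real.exp s2 - 1 / Real.exp s2 - Z2 ^ 2 = _)
    have h3 : g (Real.exp s2 - 1 / Real.exp s2 - Z2 ^ 2) Z1 =
        g (Real.exp s2 - 1 / Real.exp s2 - Z2 ^ 2) Z2 := by
      unfold g
      rw [← e1, ← e2]
      exact h2
    have h4 := (strictMono_g _).injective h3
    rw [h4] at e1
    rw [Prod.mk.injEq]
    exact ⟨h4, e1.trans e2.symm⟩
  · rintro ⟨a, b⟩
    obtain ⟨Z, hZ⟩ := surjective_g a b
    refine ⟨(Z, sOf a Z), ?_⟩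
    unfold Θ
    simp only [Prod.mk.injEq]
    exact ⟨sOf_spec a Z, hZ⟩

lemma contDiff_Θ : ContDiff ℝ 1 Θ := by
  unfold Θ C
  have h1 : ∀ p : ℝ × ℝ, p.1 ^ 2 + Real.exp p.2 + 1 / Real.exp p.2 ≠ 0 := fun p =>
    (S_pos _ _ (Real.exp_pos _)).ne'
  have h2 : ∀ p : ℝ × ℝ, Real.exp p.2 ≠ 0 := fun p => (Real.exp_pos _).ne'
  fun_prop (disch := assumption)

/-- derivative of a map along a line -/
lemma hasDerivAt_line {E F : Type*} [NormedAddCommGroup E] [NormedSpace ℝ E]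
    [NormedAddCommGroup F] [NormedSpace ℝ F] {f : E → F} {x : E}
    (hf : DifferentiableAt ℝ f x) (w : E) :
    HasDerivAt (fun τ : ℝ => f (x + τ • w)) (fderiv ℝ f x w) 0 := by
  have h1 : HasDerivAt (fun τ : ℝ => x + τ • w) w 0 := by
    have := ((hasDerivAt_id (0 : ℝ)).smul_const w).const_add x
    simpa using this
  have h2 : HasFDerivAt f (fderiv ℝ f x) (x + (0 : ℝ) • w) := by
    simpa using hf.hasFDerivAt
  exact h2.comp_hasDerivAt 0 h1

/-- linear algebra of the differential of `Θ` in curve form -/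
lemma curve_Θ {Z s : ℝ → ℝ} {u σ : ℝ} (hZ : HasDerivAt Z u 0) (hs : HasDerivAt s σ 0) :
    HasDerivAt (fun r => Real.exp (s r) - 1 / Real.exp (s r) - (Z r) ^ 2)
      ((Real.exp (s 0) * σ) * (1 + 1 / (Real.exp (s 0)) ^ 2) - 2 * Z 0 * u) 0 ∧
    HasDerivAt (fun r => Z r * C (Z r) (Real.exp (s r)))
      (u * C (Z 0) (Real.exp (s 0)) + Z 0 * (CZ (Z 0) (Real.exp (s 0)) * u +
        Ct (Z 0) (Real.exp (s 0)) * (Real.exp (s 0) * σ))) 0 := by
  have ht := hs.exp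
  constructor
  · refine ((ht.sub (hasDerivAt_inv' ht (Real.exp_pos _))).sub (hasDerivAt_sq' hZ)).congr_deriv ?_
    ring
  · exact hZ.mul (hasDerivAt_C hZ ht (Real.exp_pos _))

lemma differential_Θ_injective (p : ℝ × ℝ) : Function.Injective (fderiv ℝ Θ p) := by
  rw [injective_iff_map_eq_zero]
  rintro ⟨u, σ⟩ h0
  have hd : DifferentiableAt ℝ Θ p := contDiff_Θ.differentiable (by norm_num) p
  have h1 := hasDerivAt_line hd (u, σ)
  rw [h0] at h1
  have hZ : HasDerivAt (fun τ : ℝ => p.1 + τ * u) u 0 := by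
    have := ((hasDerivAt_id (0 : ℝ)).mul_const u).const_add p.1
    simpa using this
  have hs : HasDerivAt (fun τ : ℝ => p.2 + τ * σ) σ 0 := by
    have := ((hasDerivAt_id (0 : ℝ)).mul_const σ).const_add p.2
    simpa using this
  obtain ⟨h2, h3⟩ := curve_Θ hZ hs
  have h4 := h2.prodMk h3
  have h5 : (fun τ : ℝ => Θ (p + τ • (u, σ))) = fun τ : ℝ =>
    (Real.exp (p.2 + τ * σ) - 1 / Real.exp (p.2 + τ * σ) - (p.1 + τ * u) ^ 2,
      (p.1 + τ * u) * C (p.1 + τ * u) (Real.exp (p.2 + τ * σ))) := by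
    funext τ
    simp [Θ]
  rw [h5] at h1
  have h6 := h1.unique h4
  simp only [zero_mul, add_zero] at h6
  have h7 := congrArg Prod.fst h6
  have h8 := congrArg Prod.snd h6
  simp only [Prod.fst_zero, Prod.snd_zero] at h7 h8
  have key := key_pos p.1 (Real.exp p.2) (Real.exp_pos _)
  set t := Real.exp p.2 with ht
  have htp : 0 < t := Real.exp_pos _
  have hA : 0 < t + 1 / t := by positivity
  have h9 : t * σ = 2 * p.1 * t / (t + 1 / t) * u := by
    field_simp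
    field_simp at h7
    linarith
  rw [h9] at h8
  have h10 : u * (C p.1 t + p.1 * (CZ p.1 t + Ct p.1 t * (2 * p.1 * t / (t + 1 / t)))) = 0 := by
    rw [← h8.symm]
    ring
  have hu : u = 0 := by
    rcases mul_eq_zero.1 h10 with h | h
    · exact h
    · exact absurd h key.ne'
  rw [hu, mul_zero] at h9
  have hσ : σ = 0 := by
    rcases mul_eq_zero.1 h9 with h | h
    · exact absurd h htp.ne'
    · exact h
  rw [hu, hσ]
  rfl

/-- the differential as a continuous linear equivalence -/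
noncomputable def dΘ (p : ℝ × ℝ) : (ℝ × ℝ) ≃L[ℝ] (ℝ × ℝ) :=
  (LinearEquiv.ofInjectiveEndo ((fderiv ℝ Θ p : (ℝ × ℝ) →L[ℝ] (ℝ × ℝ)) : (ℝ × ℝ) →ₗ[ℝ] (ℝ × ℝ))
    (differential_Θ_injective p)).toContinuousLinearEquiv

lemma hasStrictFDerivAt_Θ (p : ℝ × ℝ) :
    HasStrictFDerivAt Θ ((dΘ p : (ℝ × ℝ) ≃L[ℝ] (ℝ × ℝ)) : (ℝ × ℝ) →L[ℝ] (ℝ × ℝ)) p := by
  have h := (contDiff_Θ.contDiffAt (x := p)).hasStrictFDerivAt (by norm_num)
  have h2 : ((dΘ p : (ℝ × ℝ) ≃L[ℝ] (ℝ × ℝ)) : (ℝ × ℝ) →L[ℝ] (ℝ × ℝ)) = fderiv ℝ Θ p := by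
    ext <;> rfl
  rw [h2]
  exact h

/-- `Θ` as a homeomorphism of the plane -/
noncomputable def homeo : (ℝ × ℝ) ≃ₜ (ℝ × ℝ) :=
  (Equiv.ofBijective Θ bijective_Θ).toHomeomorphOfContinuousOpen
    contDiff_Θ.continuous
    (isOpenMap_of_hasStrictFDerivAt_equiv (fun p => hasStrictFDerivAt_Θ p))

/-- the inverse map -/
noncomputable def Ψ (q : ℝ × ℝ) : ℝ × ℝ := homeo.symm q

lemma Θ_Ψ (q : ℝ × ℝ) : Θ (Ψ q) = q := homeo.apply_symm_apply q

lemma Ψ_Θ (q : ℝ × ℝ) : Ψ (Θ q) = q := homeo.symm_apply_apply q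

lemma contDiff_Ψ : ContDiff ℝ 1 Ψ := by
  rw [contDiff_iff_contDiffAt]
  intro q
  exact homeo.toOpenPartialHomeomorph.contDiffAt_symm (f₀' := dΘ (Ψ q)) (by trivial)
    (hasStrictFDerivAt_Θ _).hasFDerivAt contDiff_Θ.contDiffAt

end Pool.Agent.Zk55.Ch
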