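import Mathlib
import Pool.Agent.Zk55.Ch.Basic

/-!
# The eigenvalue estimate

The complex linear algebra behind the counterexample: a vector satisfying the eigenvalue equations
for an eigenvalue of modulus at most `1/100` vanishes.
-/

set_option autoImplicit false

namespace Pool.Agent.Zk55.Ch

section bounds

variable {Z t p : ℝ} (ht : 0 < t) (hp : 0 < p) (hp2 : p ^ 2 = C Z t - (t - 1 / t - Z ^ 2))

include ht hp2 in
lemma pS : p ^ 2 * (Z ^ 2 + t + 1 / t) = (Z ^ 2 + 1 / t) ^ 2 + t ^ 2 + 2 * t := by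
  have hS := S_pos Z t ht
  have h1 : C Z t * (Z ^ 2 + t + 1 / t) = 2 * t * (1 + t) := by
    unfold C
    field_simp
  rw [hp2, sub_mul, h1]
  ring

include ht hp2 in
lemma S_le : Z ^ 2 + t + 1 / t ≤ 2 * p ^ 2 := by
  have hS := S_pos Z t ht
  have h := pS ht hp2
  have hr : 0 < 1 / t := by positivity
  by_contra hc
  push Not at hc
  nlinarith [sq_nonneg (Z ^ 2 + 1 / t - t)]

include ht hp2 in
lemma p2_le : p ^ 2 ≤ 2 * (Z ^ 2 + t + 1 / t) := by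
  have hS := S_pos Z t ht
  have h := pS ht hp2
  have hr : 0 < 1 / t := by positivity
  have hrt : t * (1 / t) = 1 := by field_simp
  have hA : 2 ≤ t + 1 / t := by nlinarith [sq_nonneg (t - 1)]
  by_contra hc
  push Not at hc
  have h3 : 2 * (Z ^ 2 + t + 1 / t) * (Z ^ 2 + t + 1 / t) < p ^ 2 * (Z ^ 2 + t + 1 / t) :=
    mul_lt_mul_of_pos_right hc hS
  rw [h] at h3
  nlinarith [sq_nonneg Z, mul_pos ht hr]

include ht in
lemma h_le : 1 + t ≤ 3 / 2 * (Z ^ 2 + t + 1 / t) := by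
  have hr : 0 < 1 / t := by positivity
  have hrt : t * (1 / t) = 1 := by field_simp
  have hA : 1 ≤ t / 2 + 3 / 2 * (1 / t) := by
    nlinarith [sq_nonneg (t - 1)]
  nlinarith [sq_nonneg Z]

include ht hp hp2 in
lemma absZ_le : |Z| ≤ 3 / 2 * p := by
  have h := S_le ht hp2
  have hr : 0 < 1 / t := by positivity
  apply abs_le_of_sq_le_sq _ (by positivity)
  nlinarith [sq_nonneg Z, sq_nonneg p]

include ht hp2 in
lemma pZ_le : p * |Z| ≤ 3 / 2 * (Z ^ 2 + t + 1 / t) := by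
  have hS := S_pos Z t ht
  have h := p2_le ht hp2
  have hr : 0 < 1 / t := by positivity
  have h1 : |p * (|Z|)| ≤ 3 / 2 * (Z ^ 2 + t + 1 / t) := by
    apply abs_le_of_sq_le_sq _ (by positivity)
    have h2 : (p * (|Z|)) ^ 2 = p ^ 2 * Z ^ 2 := by rw [mul_pow, sq_abs]
    rw [h2]
    have h3 : p ^ 2 * Z ^ 2 ≤ 2 * (Z ^ 2 + t + 1 / t) * (Z ^ 2 + t + 1 / t) := by
      apply mul_le_mul h _ (sq_nonneg _) (by positivity)
      linarith
    nlinarith [sq_nonneg (Z ^ 2 + t + 1 / t)]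
  exact (le_abs_self _).trans h1

include ht in
lemma T_le : t / (Z ^ 2 + t + 1 / t) ≤ 1 := by
  have hS := S_pos Z t ht
  have hr : 0 < 1 / t := by positivity
  rw [div_le_one hS]
  nlinarith [sq_nonneg Z]

include ht in
lemma T_pos : 0 < t / (Z ^ 2 + t + 1 / t) := div_pos ht (S_pos Z t ht)

include ht in
lemma TB_le : t / (Z ^ 2 + t + 1 / t) * (1 + 1 / t ^ 2) ≤ 1 := by
  have hS := S_pos Z t ht
  have hr : 0 < 1 / t := by positivity
  have h1 : t / (Z ^ 2 + t + 1 / t) * (1 + 1 / t ^ 2) = (t + 1 / t) / (Z ^ 2 + t + 1 / t) := by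
    field_simp
  rw [h1, div_le_one hS]
  nlinarith [sq_nonneg Z]

include ht in
lemma absCZ_eq : |CZ Z t| =
    4 * (t / (Z ^ 2 + t + 1 / t)) * (1 + t) * |Z| / (Z ^ 2 + t + 1 / t) := by
  have hS := S_pos Z t ht
  unfold CZ
  rw [abs_div, abs_neg, abs_mul, abs_of_pos (show 0 < 4 * t * (1 + t) by positivity),
    abs_of_pos (show 0 < (Z ^ 2 + t + 1 / t) ^ 2 by positivity)]
  set S := Z ^ 2 + t + 1 / t
  field_simp

include ht hp2 in
lemma pCZ_le : p * |CZ Z t| ≤ 6 * (t / (Z ^ 2 + t + 1 / t)) * (1 + t) := by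
  have hS := S_pos Z t ht
  have hT := T_pos (Z := Z) ht
  have h := pZ_le ht hp2
  rw [absCZ_eq ht]
  set S := Z ^ 2 + t + 1 / t
  have h1 : p * (4 * (t / S) * (1 + t) * |Z| / S) = 4 * (t / S) * (1 + t) * (p * |Z|) / S := by
    ring
  rw [h1, div_le_iff₀ hS]
  have h2 : 4 * (t / S) * (1 + t) * (p * |Z|) ≤ 4 * (t / S) * (1 + t) * (3 / 2 * S) := by
    apply mul_le_mul_of_nonneg_left h
    positivity
  linarith

include ht in
lemma absCZ_le : |CZ Z t| ≤ 6 * |Z| := by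
  have hS := S_pos Z t ht
  have hT := T_pos (Z := Z) ht
  have hT' := T_le (Z := Z) ht
  have hh := h_le (Z := Z) ht
  rw [absCZ_eq ht]
  set S := Z ^ 2 + t + 1 / t
  rw [div_le_iff₀ hS]
  have h2 : 4 * (t / S) * (1 + t) ≤ 6 * S := by
    have : (t / S) * (1 + t) ≤ 1 * (3 / 2 * S) :=
      mul_le_mul hT' hh (by positivity) (by norm_num)
    linarith
  have h3 := mul_le_mul_of_nonneg_right h2 (abs_nonneg Z)
  linarith

include ht hp hp2 in
lemma CZ2Z_le : |CZ Z t + 2 * Z| ≤ 12 * p := by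
  have h1 := absCZ_le (Z := Z) ht
  have h2 := absZ_le ht hp hp2
  have h3 : |CZ Z t + 2 * Z| ≤ |CZ Z t| + |2 * Z| := abs_add_le _ _
  rw [abs_mul, abs_two] at h3
  linarith

include ht in
lemma Ct_pos : 0 < Ct Z t := by
  unfold Ct
  positivity

include ht in
lemma Ct_le : Ct Z t ≤ 6 * (1 + t) / (Z ^ 2 + t + 1 / t) := by
  have hS := S_pos Z t ht
  have hr : 0 < 1 / t := by positivity
  have hrt : t * (1 / t) = 1 := by field_simp
  unfold Ct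
  rw [div_le_div_iff₀ (by positivity) hS]
  have h1 : 2 * ((1 + 2 * t) * Z ^ 2 + t ^ 2 + 3 + 2 / t) ≤
      6 * (1 + t) * (Z ^ 2 + t + 1 / t) := by
    have h2 : 2 / t = 2 * (1 / t) := by ring
    rw [h2]
    nlinarith [mul_nonneg ht.le (sq_nonneg Z), sq_nonneg Z, sq_nonneg t]
  have h3 := mul_le_mul_of_nonneg_right h1 hS.le
  linarith

include ht in
lemma CtB_le : |Ct Z t - (1 + 1 / t ^ 2)| ≤ 9 * (1 + 1 / t ^ 2) := by
  have hS := S_pos Z t ht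
  have h1 := Ct_pos (Z := Z) ht
  have h2 := Ct_le (Z := Z) ht
  have hh := h_le (Z := Z) ht
  have hB : 0 < 1 / t ^ 2 := by positivity
  have h3 : 6 * (1 + t) / (Z ^ 2 + t + 1 / t) ≤ 9 := by
    rw [div_le_iff₀ hS]
    linarith
  rw [abs_le]
  constructor <;> linarith

include ht hp2 in
lemma p2Ct_le : p ^ 2 * Ct Z t ≤ 12 * (1 + t) := by
  have hS := S_pos Z t ht
  have h1 := Ct_pos (Z := Z) ht
  have h2 := Ct_le (Z := Z) ht
  have h3 := p2_le ht hp2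
  have h4 : p ^ 2 * Ct Z t ≤ (2 * (Z ^ 2 + t + 1 / t)) * (6 * (1 + t) / (Z ^ 2 + t + 1 / t)) :=
    mul_le_mul h3 h2 h1.le (by positivity)
  have h5 : (2 * (Z ^ 2 + t + 1 / t)) * (6 * (1 + t) / (Z ^ 2 + t + 1 / t)) = 12 * (1 + t) := by
    field_simp
    norm_num
  linarith

lemma C_eq : C Z t = 2 * (t / (Z ^ 2 + t + 1 / t)) * (1 + t) := by
  unfold C
  ring

include ht hp2 in
lemma h_le_p : 1 + t ≤ 3 * p ^ 2 := by
  have h1 := h_le (Z := Z) ht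
  have h2 := S_le ht hp2
  linarith

end bounds

/-- the real inequalities behind the eigenvalue estimate -/
lemma real_final {m K D Y : ℝ} (hm0 : 0 ≤ m) (hm : m ≤ 1 / 100) (hK : 0 ≤ K) (hD : 0 ≤ D)
    (hY : 0 ≤ Y) (h1 : Y ≤ 6 * K + 9 / 2 * m ^ 2 * D) (h2 : D ≤ 12 * K + (12 + 54 * m) * Y)
    (h3 : K ≤ 3 * m ^ 2 * D + m ^ 4 * (4 * K + 18 * m * Y + 3 / 2 * D)) :
    K = 0 ∧ D = 0 ∧ Y = 0 := by
  have hm2 : m ^ 2 ≤ 1 / 10000 := by nlinarith
  have hm4 : m ^ 4 ≤ 1 / 10000 := by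
    have : m ^ 4 = m ^ 2 * m ^ 2 := by ring
    rw [this]
    nlinarith [sq_nonneg m]
  have e1 : m ^ 2 * D ≤ 1 / 10000 * D := mul_le_mul_of_nonneg_right hm2 hD
  have e2 : m * Y ≤ 1 / 100 * Y := mul_le_mul_of_nonneg_right hm hY
  have e3 : m ^ 4 * (4 * K + 18 * m * Y + 3 / 2 * D) ≤
      1 / 10000 * (4 * K + 18 * m * Y + 3 / 2 * D) :=
    mul_le_mul_of_nonneg_right hm4 (by positivity)
  have hK0 : K = 0 := by nlinarith
  subst hK0
  have hD0 : D = 0 := by nlinarith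
  subst hD0
  refine ⟨rfl, rfl, ?_⟩
  linarith

/-- the eigenvalue equations have only the zero solution -/
lemma eig_key {Z t p : ℝ} (ht : 0 < t) (hp : 0 < p) (hp2 : p ^ 2 = C Z t - (t - 1 / t - Z ^ 2))
    {l u v q w0 w1 w2 w3 w4 w5 : ℂ} (hl : ‖l‖ ≤ 1 / 100)
    (h0 : w0 = ((1 + 1 / t ^ 2 : ℝ) : ℂ) * v - 2 * Z * u)
    (h1 : w1 = (C Z t : ℂ) * u + (Z : ℂ) * ((CZ Z t : ℂ) * u + (Ct Z t : ℂ) * v))
    (h2 : 2 * (p : ℂ) * q = ((CZ Z t : ℂ) * u + (Ct Z t : ℂ) * v) - w0)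
    (e0 : 2 * (u * p + Z * q) + w2 = l * w0)
    (e1 : 3 * (p : ℂ) ^ 2 * q + w3 = l * w1)
    (e2 : 2 * (Z : ℂ) * u - 2 / 3 * v = l * w2)
    (e3 : 3 * (u * (p : ℂ) ^ 2 + 2 * Z * p * q) + w4 = l * w3)
    (e4 : 6 * (Z : ℂ) * u * p - v * p + (3 * (Z : ℂ) ^ 2 - (1 + t)) * q + w5 = l * w4)
    (e5 : 3 * (Z : ℂ) ^ 2 * u - v * Z - (1 + t) * u = l * w5) :
    w0 = 0 ∧ w1 = 0 ∧ w2 = 0 ∧ w3 = 0 ∧ w4 = 0 ∧ w5 = 0 := by
  have hS := S_pos Z t ht
  obtain ⟨dc, hdc⟩ : ∃ dc : ℂ, dc = (CZ Z t : ℂ) * u + (Ct Z t : ℂ) * v := ⟨_, rfl⟩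
  obtain ⟨U, hU⟩ : ∃ U : ℂ, U = u + l * q := ⟨_, rfl⟩
  rw [← hdc] at h1 h2
  -- the two reduced equations
  have I1 : v = 3 * (Z + l * p) * U - 3 / 2 * l ^ 2 * dc := by
    rw [hU]
    linear_combination (-3 / 2 * l) * e0 + (-3 / 2) * e2 + (-3 / 2 * l ^ 2) * h2
  have I2 : (1 + t) * U = 3 / 2 * l ^ 2 * (Z + l * p) * dc - l ^ 4 * w1 := by
    have I3 : (3 * (Z + l * p) ^ 2 - (1 + t)) * U - (Z + l * p) * v - l ^ 4 * w1 = 0 := by
      rw [hU]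
      linear_combination l * e4 + e5 + l ^ 2 * e3 + l ^ 3 * e1
    linear_combination (-1 : ℂ) * I3 - (Z + l * p) * I1
  -- norms
  obtain ⟨m, hm⟩ : ∃ m : ℝ, m = ‖l‖ := ⟨_, rfl⟩
  obtain ⟨K, hK⟩ : ∃ K : ℝ, K = ‖U‖ := ⟨_, rfl⟩
  obtain ⟨x, hx⟩ : ∃ x : ℝ, x = ‖u‖ := ⟨_, rfl⟩
  obtain ⟨y, hy⟩ : ∃ y : ℝ, y = ‖v‖ := ⟨_, rfl⟩
  obtain ⟨d, hd⟩ : ∃ d : ℝ, d = ‖dc‖ := ⟨_, rfl⟩
  obtain ⟨Q, hQ⟩ : ∃ Q : ℝ, Q = ‖q‖ := ⟨_, rfl⟩
  have hm0 : 0 ≤ m := hm ▸ norm_nonneg _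
  have hK0 : 0 ≤ K := hK ▸ norm_nonneg _
  have hx0 : 0 ≤ x := hx ▸ norm_nonneg _
  have hy0 : 0 ≤ y := hy ▸ norm_nonneg _
  have hd0 : 0 ≤ d := hd ▸ norm_nonneg _
  have hQ0 : 0 ≤ Q := hQ ▸ norm_nonneg _
  have hm1 : m ≤ 1 / 100 := hm ▸ hl
  obtain ⟨B, hB⟩ : ∃ B : ℝ, B = 1 + 1 / t ^ 2 := ⟨_, rfl⟩
  have hB0 : 0 < B := by rw [hB]; positivity
  obtain ⟨T, hT⟩ : ∃ T : ℝ, T = t / (Z ^ 2 + t + 1 / t) := ⟨_, rfl⟩
  have hT0 : 0 < T := hT ▸ T_pos ht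
  have hT1 : T ≤ 1 := hT ▸ T_le ht
  have hTB : T * B ≤ 1 := by rw [hT, hB]; exact TB_le ht
  have hZp := absZ_le ht hp hp2
  have hhp := h_le_p ht hp2
  have hCt0 := Ct_pos (Z := Z) ht
  have hpCZ := pCZ_le ht hp2
  have hpCt := p2Ct_le ht hp2
  have hCZ2 := CZ2Z_le ht hp hp2
  have hCtB := CtB_le (Z := Z) ht
  have hCeq := C_eq (Z := Z) (t := t)
  rw [← hT] at hpCZ hCeq
  rw [← hB] at hCtB
  have n_real : ∀ (r : ℝ) (z : ℂ), ‖(r : ℂ) * z‖ = |r| * ‖z‖ := by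
    intro r z
    rw [norm_mul, Complex.norm_real, Real.norm_eq_abs]
  -- bound for q
  have b1 : 2 * p * Q ≤ 12 * p * x + 9 * B * y := by
    have h3 : ((2 * p : ℝ) : ℂ) * q =
        ((CZ Z t + 2 * Z : ℝ) : ℂ) * u + ((Ct Z t - (1 + 1 / t ^ 2) : ℝ) : ℂ) * v := by
      rw [h0] at h2
      rw [hdc] at h2
      push_cast
      push_cast at h2
      linear_combination h2
    have h4 : ‖((2 * p : ℝ) : ℂ) * q‖ ≤
        |CZ Z t + 2 * Z| * x + |Ct Z t - (1 + 1 / t ^ 2)| * y := by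
      rw [h3, hx, hy, ← n_real, ← n_real]
      exact norm_add_le _ _
    rw [n_real, abs_of_pos (by positivity : 0 < 2 * p), ← hQ, ← hB] at h4
    have h5 := mul_le_mul_of_nonneg_right hCZ2 hx0
    have h6 := mul_le_mul_of_nonneg_right hCtB hy0
    linarith
  have b2 : x ≤ K + m * Q := by
    have h3 : u = U - l * q := by rw [hU]; ring
    have h4 : ‖u‖ ≤ ‖U‖ + ‖l * q‖ := by
      conv_lhs => rw [h3]
      exact norm_sub_le _ _
    rw [norm_mul, ← hm, ← hQ, ← hK, ← hx] at h4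
    exact h4
  have b3 : ‖(Z : ℂ) + l * p‖ ≤ 2 * p := by
    have h3 := norm_add_le (Z : ℂ) (l * p)
    rw [norm_mul, Complex.norm_real, Complex.norm_real, Real.norm_eq_abs, Real.norm_eq_abs,
      abs_of_pos hp, ← hm] at h3
    have h4 : m * p ≤ 1 / 100 * p := mul_le_mul_of_nonneg_right hm1 hp.le
    linarith
  have b4 : y ≤ 6 * p * K + 3 / 2 * m ^ 2 * d := by
    have h3 : ‖v‖ ≤ ‖3 * (Z + l * p) * U‖ + ‖3 / 2 * l ^ 2 * dc‖ := by
      conv_lhs => rw [I1]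
      exact norm_sub_le _ _
    rw [norm_mul, norm_mul, norm_mul, norm_mul, norm_pow, ← hK, ← hd, ← hm, ← hy] at h3
    have e3' : ‖(3 : ℂ)‖ = 3 := by simp
    have e32 : ‖(3 / 2 : ℂ)‖ = 3 / 2 := by simp
    rw [e3', e32] at h3
    have h4 := mul_le_mul_of_nonneg_right b3 hK0
    linarith
  have b5 : d ≤ |CZ Z t| * x + Ct Z t * y := by
    have h3 := norm_add_le ((CZ Z t : ℂ) * u) ((Ct Z t : ℂ) * v)
    rw [← hdc, n_real, n_real, ← hx, ← hy, ← hd, abs_of_pos hCt0] at h3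
    exact h3
  have b6 : (1 + t) * K ≤ 3 * m ^ 2 * p * d + m ^ 4 * ‖w1‖ := by
    have h3 : ‖(1 + t : ℂ) * U‖ ≤ ‖3 / 2 * l ^ 2 * (Z + l * p) * dc‖ + ‖l ^ 4 * w1‖ := by
      rw [I2]
      exact norm_sub_le _ _
    have h4 : ((1 + t : ℂ)) = ((1 + t : ℝ) : ℂ) := by push_cast; rfl
    rw [h4, n_real, abs_of_pos (by positivity : 0 < 1 + t), norm_mul, norm_mul, norm_mul, norm_mul,
      norm_pow, norm_pow, ← hK, ← hd, ← hm] at h3
    have e32 : ‖(3 / 2 : ℂ)‖ = 3 / 2 := by simp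
    rw [e32] at h3
    have h5 : ‖(Z : ℂ) + l * p‖ * d ≤ 2 * p * d := mul_le_mul_of_nonneg_right b3 hd0
    have h6 : 0 ≤ m ^ 2 := sq_nonneg _
    have h7 := mul_le_mul_of_nonneg_left h5 h6
    linarith
  have b7 : ‖w1‖ ≤ 2 * T * (1 + t) * x + 3 / 2 * p * d := by
    have h3 := norm_add_le ((C Z t : ℂ) * u) ((Z : ℂ) * dc)
    rw [← h1, n_real, n_real, ← hx, ← hd, hCeq, abs_of_pos (by positivity)] at h3
    have h4 := mul_le_mul_of_nonneg_right hZp hd0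
    linarith
  -- normalised quantities
  obtain ⟨Y, hY⟩ : ∃ Y : ℝ, y = p * Y := ⟨y / p, by field_simp⟩
  obtain ⟨D, hD⟩ : ∃ D : ℝ, p * d = (1 + t) * D := ⟨p * d / (1 + t), by field_simp⟩
  have hY0 : 0 ≤ Y := by
    by_contra hc
    push Not at hc
    nlinarith
  have hD0 : 0 ≤ D := by
    by_contra hc
    push Not at hc
    have : (1 + t) * D < 0 := mul_neg_of_pos_of_neg (by positivity) hc
    have : 0 ≤ p * d := by positivity
    linarith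
  have c1 : Q ≤ 6 * x + 9 / 2 * B * Y := by
    rw [hY] at b1
    have h3 : p * (2 * Q) ≤ p * (12 * x + 9 * B * Y) := by linarith
    have h4 := le_of_mul_le_mul_left h3 hp
    linarith
  have c2 : x ≤ 2 * K + 9 * m * B * Y := by
    have h3 : m * Q ≤ m * (6 * x + 9 / 2 * B * Y) := mul_le_mul_of_nonneg_left c1 hm0
    have h4 : m * x ≤ 1 / 100 * x := mul_le_mul_of_nonneg_right hm1 hx0
    have h5 : 0 ≤ m * B * Y := by positivity
    linarith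
  have c3 : T * x ≤ 2 * K + 9 * m * Y := by
    have h3 : T * x ≤ T * (2 * K + 9 * m * B * Y) := mul_le_mul_of_nonneg_left c2 hT0.le
    have h4 : T * K ≤ 1 * K := mul_le_mul_of_nonneg_right hT1 hK0
    have h5 : (T * B) * (m * Y) ≤ 1 * (m * Y) := mul_le_mul_of_nonneg_right hTB (by positivity)
    linarith
  have c4 : D ≤ 12 * K + (12 + 54 * m) * Y := by
    have h3 : p * d ≤ p * (|CZ Z t| * x + Ct Z t * y) := mul_le_mul_of_nonneg_left b5 hp.le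
    have h4 := mul_le_mul_of_nonneg_right hpCZ hx0
    have h5 := mul_le_mul_of_nonneg_right hpCt hY0
    have h6 : (1 + t) * D ≤ (1 + t) * (6 * (T * x) + 12 * Y) := by
      rw [← hD]
      refine h3.trans ?_
      have e : p * (|CZ Z t| * x + Ct Z t * y) = p * |CZ Z t| * x + p ^ 2 * Ct Z t * Y := by
        rw [hY]
        ring
      rw [e]
      linarith
    have h7 := le_of_mul_le_mul_left h6 (by positivity)
    linarith
  have c5 : Y ≤ 6 * K + 9 / 2 * m ^ 2 * D := by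
    have h3 : p * y ≤ p * (6 * p * K + 3 / 2 * m ^ 2 * d) := mul_le_mul_of_nonneg_left b4 hp.le
    have h4 : p * (6 * p * K + 3 / 2 * m ^ 2 * d) =
        6 * p ^ 2 * K + 3 / 2 * m ^ 2 * ((1 + t) * D) := by
      rw [← hD]; ring
    have h5 : (1 + t) * D ≤ 3 * p ^ 2 * D := mul_le_mul_of_nonneg_right hhp hD0
    have h6 : m ^ 2 * ((1 + t) * D) ≤ m ^ 2 * (3 * p ^ 2 * D) :=
      mul_le_mul_of_nonneg_left h5 (sq_nonneg _)
    have h7 : p ^ 2 * Y ≤ p ^ 2 * (6 * K + 9 / 2 * m ^ 2 * D) := by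
      rw [hY, h4] at h3
      linarith
    exact le_of_mul_le_mul_left h7 (by positivity)
  have c6 : K ≤ 3 * m ^ 2 * D + m ^ 4 * (4 * K + 18 * m * Y + 3 / 2 * D) := by
    have h3 : ‖w1‖ ≤ (1 + t) * (2 * (T * x) + 3 / 2 * D) := by
      refine b7.trans (le_of_eq ?_)
      have : 3 / 2 * p * d = 3 / 2 * (p * d) := by ring
      rw [this, hD]
      ring
    have h4 : 2 * (T * x) + 3 / 2 * D ≤ 4 * K + 18 * m * Y + 3 / 2 * D := by linarith
    have h5 : (1 + t) * (2 * (T * x) + 3 / 2 * D) ≤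
        (1 + t) * (4 * K + 18 * m * Y + 3 / 2 * D) :=
      mul_le_mul_of_nonneg_left h4 (by positivity)
    have h6 : m ^ 4 * ‖w1‖ ≤ m ^ 4 * ((1 + t) * (4 * K + 18 * m * Y + 3 / 2 * D)) :=
      mul_le_mul_of_nonneg_left (h3.trans h5) (by positivity)
    have h7 : (1 + t) * K ≤ (1 + t) *
        (3 * m ^ 2 * D + m ^ 4 * (4 * K + 18 * m * Y + 3 / 2 * D)) := by
      refine b6.trans ?_
      have : 3 * m ^ 2 * p * d = 3 * m ^ 2 * (p * d) := by ring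
      rw [this, hD]
      linarith
    exact le_of_mul_le_mul_left h7 (by positivity)
  obtain ⟨r1, r2, r3⟩ := real_final hm0 hm1 hK0 hD0 hY0 c5 c4 c6
  have s1 : v = 0 := by
    rw [r3, mul_zero] at hY
    rw [← norm_eq_zero, ← hy, hY]
  have s2 : dc = 0 := by
    rw [r2, mul_zero] at hD
    rw [← norm_eq_zero, ← hd]
    rcases mul_eq_zero.1 hD with h | h
    · exact absurd h hp.ne'
    · exact h
  have s3 : u = 0 := by
    rw [← norm_eq_zero, ← hx]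
    rw [r1, r3] at c2
    linarith
  have t0 : w0 = 0 := by rw [h0, s1, s3]; ring
  have t1 : w1 = 0 := by rw [h1, s3, s2]; ring
  have sq : q = 0 := by
    rw [s2, t0, sub_zero] at h2
    rcases mul_eq_zero.1 h2 with h | h
    · exfalso
      have : (2 : ℂ) * (p : ℂ) ≠ 0 := by
        apply mul_ne_zero two_ne_zero
        exact_mod_cast hp.ne'
      exact this h
    · exact h
  have t2 : w2 = 0 := by
    rw [t0, s3, sq] at e0
    linear_combination e0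
  have t3 : w3 = 0 := by
    rw [t1, sq] at e1
    linear_combination e1
  have t4 : w4 = 0 := by
    rw [t3, s3, sq] at e3
    linear_combination e3
  have t5 : w5 = 0 := by
    rw [t4, s3, s1, sq] at e4
    linear_combination e4
  exact ⟨t0, t1, t2, t3, t4, t5⟩

end Pool.Agent.Zk55.Ch
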