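import Mathlib
import Pool.Agent.Zk55.Ch.Basic
import Pool.Agent.Zk55.Ch.Eig

/-!
# The map

`ff : ℝ⁶ → ℝ⁶` is continuously differentiable, its Jacobians have no eigenvalue of modulus at most
`1/100`, and it is not injective.
-/

set_option autoImplicit false

namespace Pool.Agent.Zk55.Ch

/-- the root of the eigenvalue equation in the original family -/
noncomputable def Pi (Z t a : ℝ) : ℝ := √(C Z t - a)

lemma Ca_pos {Z t : ℝ} (ht : 0 < t) : 0 < C Z t - (t - 1 / t - Z ^ 2) := by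
  have hS := S_pos Z t ht
  have h1 : (C Z t - (t - 1 / t - Z ^ 2)) =
      ((Z ^ 2 + 1 / t) ^ 2 + t ^ 2 + 2 * t) / (Z ^ 2 + t + 1 / t) := by
    unfold C
    field_simp
    ring
  rw [h1]
  positivity

/-- the first coordinate of the plane point -/
noncomputable def ZZ (x : Fin 6 → ℝ) : ℝ := (Ψ (x 0, x 1)).1

/-- the second coordinate of the plane point -/
noncomputable def ss (x : Fin 6 → ℝ) : ℝ := (Ψ (x 0, x 1)).2

/-- its exponential -/
noncomputable def tt (x : Fin 6 → ℝ) : ℝ := Real.exp (ss x)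

/-- the square root -/
noncomputable def pp (x : Fin 6 → ℝ) : ℝ := Pi (ZZ x) (tt x) (x 0)

lemma tt_pos (x : Fin 6 → ℝ) : 0 < tt x := Real.exp_pos _

lemma rel_a (x : Fin 6 → ℝ) : tt x - 1 / tt x - (ZZ x) ^ 2 = x 0 := by
  have h := Θ_Ψ (x 0, x 1)
  exact congrArg Prod.fst h

lemma rel_b (x : Fin 6 → ℝ) : ZZ x * C (ZZ x) (tt x) = x 1 := by
  have h := Θ_Ψ (x 0, x 1)
  exact congrArg Prod.snd h

lemma Ca_pos' (x : Fin 6 → ℝ) : 0 < C (ZZ x) (tt x) - x 0 := by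
  rw [← rel_a x]
  exact Ca_pos (tt_pos x)

lemma pp_pos (x : Fin 6 → ℝ) : 0 < pp x := Real.sqrt_pos.2 (Ca_pos' x)

lemma pp_sq (x : Fin 6 → ℝ) :
    pp x ^ 2 = C (ZZ x) (tt x) - (tt x - 1 / tt x - (ZZ x) ^ 2) := by
  rw [rel_a]
  exact Real.sq_sqrt (Ca_pos' x).le

/-- the map -/
noncomputable def ff (x : Fin 6 → ℝ) : Fin 6 → ℝ :=
  ![x 2 + 2 * (ZZ x * pp x), x 3 + pp x ^ 3, ZZ x ^ 2 - 2 / 3 * (1 + tt x),
    x 4 + 3 * (ZZ x * pp x ^ 2), x 5 + (3 * ZZ x ^ 2 - (1 + tt x)) * pp x,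
    ZZ x ^ 3 - (1 + tt x) * ZZ x]

lemma contDiff_pt : ContDiff ℝ 1 (fun x : Fin 6 → ℝ => Ψ (x 0, x 1)) := by
  apply contDiff_Ψ.comp
  fun_prop

lemma contDiff_ZZ : ContDiff ℝ 1 ZZ := contDiff_fst.comp contDiff_pt

lemma contDiff_ss : ContDiff ℝ 1 ss := contDiff_snd.comp contDiff_pt

lemma contDiff_tt : ContDiff ℝ 1 tt := Real.contDiff_exp.comp contDiff_ss

lemma contDiff_Cx : ContDiff ℝ 1 (fun x => C (ZZ x) (tt x)) := by
  unfold C
  have h1 := contDiff_ZZ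
  have h2 := contDiff_tt
  have h3 : ∀ x : Fin 6 → ℝ, (ZZ x) ^ 2 + tt x + 1 / tt x ≠ 0 := fun x =>
    (S_pos _ _ (tt_pos x)).ne'
  have h4 : ∀ x : Fin 6 → ℝ, tt x ≠ 0 := fun x => (tt_pos x).ne'
  fun_prop (disch := assumption)

lemma contDiff_pp : ContDiff ℝ 1 pp := by
  have h1 := contDiff_Cx
  have h2 : ContDiff ℝ 1 (fun x : Fin 6 → ℝ => C (ZZ x) (tt x) - x 0) := by fun_prop
  exact h2.sqrt (fun x => (Ca_pos' x).ne')

lemma contDiff_ff : ContDiff ℝ 1 ff := by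
  have h1 := contDiff_ZZ
  have h2 := contDiff_tt
  have h3 := contDiff_pp
  rw [contDiff_pi]
  intro i
  fin_cases i <;> simp [ff] <;> fun_prop

/-- the differential of the map in terms of the differentials of `Z`, `t` and `π` -/
lemma curve_all (x w : Fin 6 → ℝ) : ∃ u v q : ℝ,
    w 0 = (1 + 1 / (tt x) ^ 2) * v - 2 * ZZ x * u ∧
    w 1 = C (ZZ x) (tt x) * u + ZZ x * (CZ (ZZ x) (tt x) * u + Ct (ZZ x) (tt x) * v) ∧
    2 * pp x * q = (CZ (ZZ x) (tt x) * u + Ct (ZZ x) (tt x) * v) - w 0 ∧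
    fderiv ℝ ff x w 0 = w 2 + 2 * (u * pp x + ZZ x * q) ∧
    fderiv ℝ ff x w 1 = w 3 + 3 * pp x ^ 2 * q ∧
    fderiv ℝ ff x w 2 = 2 * ZZ x * u - 2 / 3 * v ∧
    fderiv ℝ ff x w 3 = w 4 + 3 * (u * pp x ^ 2 + 2 * ZZ x * pp x * q) ∧
    fderiv ℝ ff x w 4 = w 5 + (6 * ZZ x * u * pp x - v * pp x +
      (3 * ZZ x ^ 2 - (1 + tt x)) * q) ∧
    fderiv ℝ ff x w 5 = 3 * ZZ x ^ 2 * u - v * ZZ x - (1 + tt x) * u := by
  have dx : ∀ i : Fin 6, HasDerivAt (fun τ : ℝ => (x + τ • w) i) (w i) 0 := by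
    intro i
    have := ((hasDerivAt_id (0 : ℝ)).mul_const (w i)).const_add (x i)
    simpa using this
  have dZ := hasDerivAt_line (contDiff_ZZ.differentiable (by norm_num) x) w
  have ds := hasDerivAt_line (contDiff_ss.differentiable (by norm_num) x) w
  have df := hasDerivAt_line (contDiff_ff.differentiable (by norm_num) x) w
  have dt : HasDerivAt (fun τ : ℝ => tt (x + τ • w)) (tt x * fderiv ℝ ss x w) 0 := by
    have := ds.exp
    simpa [tt] using this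
  obtain ⟨u, hu⟩ : ∃ u : ℝ, u = fderiv ℝ ZZ x w := ⟨_, rfl⟩
  obtain ⟨v, hv⟩ : ∃ v : ℝ, v = tt x * fderiv ℝ ss x w := ⟨_, rfl⟩
  rw [← hu] at dZ
  rw [← hv] at dt
  have x0 : x + (0 : ℝ) • w = x := by simp
  have dC : HasDerivAt (fun τ : ℝ => C (ZZ (x + τ • w)) (tt (x + τ • w)))
      (CZ (ZZ x) (tt x) * u + Ct (ZZ x) (tt x) * v) 0 := by
    have := hasDerivAt_C dZ dt (tt_pos _)
    rwa [x0] at this
  have dCa : HasDerivAt (fun τ : ℝ => C (ZZ (x + τ • w)) (tt (x + τ • w)) - (x + τ • w) 0)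
      (CZ (ZZ x) (tt x) * u + Ct (ZZ x) (tt x) * v - w 0) 0 := dC.sub (dx 0)
  have dp : HasDerivAt (fun τ : ℝ => pp (x + τ • w))
      ((CZ (ZZ x) (tt x) * u + Ct (ZZ x) (tt x) * v - w 0) / (2 * pp x)) 0 := by
    have := dCa.sqrt (Ca_pos' _).ne'
    refine this.congr_deriv ?_
    rw [x0]
    rfl
  obtain ⟨q, hq⟩ : ∃ q : ℝ, q =
    (CZ (ZZ x) (tt x) * u + Ct (ZZ x) (tt x) * v - w 0) / (2 * pp x) := ⟨_, rfl⟩
  rw [← hq] at dp
  have hp := pp_pos x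
  refine ⟨u, v, q, ?_, ?_, ?_, ?_⟩
  · have h1 : HasDerivAt (fun τ : ℝ => tt (x + τ • w) - 1 / tt (x + τ • w) -
        (ZZ (x + τ • w)) ^ 2) (v - -v / (tt x) ^ 2 - 2 * ZZ x * u) 0 := by
      have := (dt.sub (hasDerivAt_inv' dt (tt_pos _))).sub (hasDerivAt_sq' dZ)
      rwa [x0] at this
    simp_rw [rel_a] at h1
    have h2 := (dx 0).unique h1
    rw [h2]
    ring
  · have h1 : HasDerivAt (fun τ : ℝ => ZZ (x + τ • w) * C (ZZ (x + τ • w)) (tt (x + τ • w)))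
        (u * C (ZZ x) (tt x) + ZZ x * (CZ (ZZ x) (tt x) * u + Ct (ZZ x) (tt x) * v)) 0 := by
      have := dZ.mul dC
      rwa [x0] at this
    simp_rw [rel_b] at h1
    have h2 := (dx 1).unique h1
    rw [h2]
    ring
  · rw [hq]
    field_simp
  rw [hasDerivAt_pi] at df
  have d2 : HasDerivAt (fun τ : ℝ => ZZ (x + τ • w) * pp (x + τ • w)) (u * pp x + ZZ x * q) 0 := by
    have := dZ.mul dp
    rwa [x0] at this
  have d3 : HasDerivAt (fun τ : ℝ => pp (x + τ • w) ^ 3) (3 * pp x ^ 2 * q) 0 := by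
    have := dp.fun_pow 3
    rw [x0] at this
    simpa using this
  have d4 : HasDerivAt (fun τ : ℝ => ZZ (x + τ • w) ^ 2) (2 * ZZ x * u) 0 := by
    have := hasDerivAt_sq' dZ
    rwa [x0] at this
  have d5 : HasDerivAt (fun τ : ℝ => pp (x + τ • w) ^ 2) (2 * pp x * q) 0 := by
    have := hasDerivAt_sq' dp
    rwa [x0] at this
  have d6 : HasDerivAt (fun τ : ℝ => ZZ (x + τ • w) * pp (x + τ • w) ^ 2)
      (u * pp x ^ 2 + ZZ x * (2 * pp x * q)) 0 := by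
    have := dZ.mul d5
    rwa [x0] at this
  have d7 : HasDerivAt (fun τ : ℝ => (3 * ZZ (x + τ • w) ^ 2 - (1 + tt (x + τ • w))))
      (3 * (2 * ZZ x * u) - v) 0 := (d4.const_mul 3).sub (dt.const_add 1)
  have d8 : HasDerivAt (fun τ : ℝ => (3 * ZZ (x + τ • w) ^ 2 - (1 + tt (x + τ • w))) *
      pp (x + τ • w)) ((3 * (2 * ZZ x * u) - v) * pp x + (3 * ZZ x ^ 2 - (1 + tt x)) * q) 0 := by
    have := d7.mul dp
    rwa [x0] at this
  have d9 : HasDerivAt (fun τ : ℝ => ZZ (x + τ • w) ^ 3) (3 * ZZ x ^ 2 * u) 0 := by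
    have := dZ.fun_pow 3
    rw [x0] at this
    simpa using this
  have d10 : HasDerivAt (fun τ : ℝ => (1 + tt (x + τ • w)) * ZZ (x + τ • w))
      (v * ZZ x + (1 + tt x) * u) 0 := by
    have := (dt.const_add 1).mul dZ
    rwa [x0] at this
  refine ⟨?_, ?_, ?_, ?_, ?_, ?_⟩
  · exact (df 0).unique ((dx 2).add (d2.const_mul 2))
  · exact (df 1).unique ((dx 3).add d3)
  · have h := (df 2).unique (d4.sub ((dt.const_add 1).const_mul (2 / 3)))
    exact h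
  · have h := (df 3).unique ((dx 4).add (d6.const_mul 3))
    rw [h]
    ring
  · have h := (df 4).unique ((dx 5).add d8)
    rw [h]
    ring
  · have h := (df 5).unique (d9.sub d10)
    rw [h]
    ring

end Pool.Agent.Zk55.Ch
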