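import Mathlib
import Pool.Agent.Zk55.Ch.Main

/-!
# Eigenvalues of the Jacobian and non-injectivity
-/

set_option autoImplicit false

namespace Pool.Agent.Zk55.Ch

/-- the Jacobian matrix -/
noncomputable def Jac (x : Fin 6 → ℝ) : Matrix (Fin 6) (Fin 6) ℝ :=
  LinearMap.toMatrix' ((fderiv ℝ ff x : (Fin 6 → ℝ) →L[ℝ] (Fin 6 → ℝ)) :
    (Fin 6 → ℝ) →ₗ[ℝ] (Fin 6 → ℝ))

lemma Jac_mulVec (x w : Fin 6 → ℝ) : (Jac x).mulVec w = fderiv ℝ ff x w :=
  LinearMap.toMatrix'_mulVec _ _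

/-- a complex root of the characteristic polynomial has a complex eigenvector -/
lemma exists_eigenvector (M : Matrix (Fin 6) (Fin 6) ℝ) (z : ℂ)
    (hz : Polynomial.aeval z M.charpoly = 0) :
    ∃ W : Fin 6 → ℂ, W ≠ 0 ∧ ∀ i, ∑ j, (M i j : ℂ) * W j = z * W i := by
  rw [Polynomial.aeval_def, ← Polynomial.eval_map, ← Matrix.charpoly_map,
    Matrix.eval_charpoly] at hz
  obtain ⟨W, hW, h⟩ := Matrix.exists_mulVec_eq_zero_iff.2 hz
  refine ⟨W, hW, fun i => ?_⟩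
  rw [Matrix.sub_mulVec] at h
  have h2 := congrFun h i
  simp only [Pi.sub_apply, Pi.zero_apply, Matrix.scalar_apply, Matrix.mulVec_diagonal] at h2
  rw [sub_eq_zero] at h2
  rw [h2]
  rfl

lemma eig_bound (x : Fin 6 → ℝ) (z : ℂ) (hz : Polynomial.aeval z (Jac x).charpoly = 0) :
    1 / 100 ≤ ‖z‖ := by
  by_contra hc
  push Not at hc
  obtain ⟨W, hW, h⟩ := exists_eigenvector _ z hz
  obtain ⟨wr, hwr⟩ : ∃ wr : Fin 6 → ℝ, wr = fun i => (W i).re := ⟨_, rfl⟩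
  obtain ⟨wi, hwi⟩ : ∃ wi : Fin 6 → ℝ, wi = fun i => (W i).im := ⟨_, rfl⟩
  have hWs : ∀ i, W i = (wr i : ℂ) + (wi i : ℂ) * Complex.I := by
    intro i
    rw [hwr, hwi]
    exact (Complex.re_add_im (W i)).symm
  have hM : ∀ i, z * W i = ((fderiv ℝ ff x wr i : ℝ) : ℂ) +
      ((fderiv ℝ ff x wi i : ℝ) : ℂ) * Complex.I := by
    intro i
    rw [← h i, ← Jac_mulVec, ← Jac_mulVec]
    simp only [Matrix.mulVec, dotProduct]
    push_cast
    rw [Finset.sum_mul, ← Finset.sum_add_distrib]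
    apply Finset.sum_congr rfl
    intro j _
    rw [hWs j]
    ring
  obtain ⟨u, v, q, a0, a1, a2, a3, a4, a5, a6, a7, a8⟩ := curve_all x wr
  obtain ⟨u', v', q', b0, b1, b2, b3, b4, b5, b6, b7, b8⟩ := curve_all x wi
  have key := eig_key (Z := ZZ x) (t := tt x) (p := pp x) (tt_pos x) (pp_pos x) (pp_sq x)
    (l := z) (u := u + u' * Complex.I) (v := v + v' * Complex.I) (q := q + q' * Complex.I)
    (w0 := W 0) (w1 := W 1) (w2 := W 2) (w3 := W 3) (w4 := W 4) (w5 := W 5) hc.le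
    (by
      rw [hWs 0, a0, b0]
      push_cast
      ring)
    (by
      rw [hWs 1, a1, b1]
      push_cast
      ring)
    (by
      have a2' : ((2 * pp x * q : ℝ) : ℂ) =
        ((CZ (ZZ x) (tt x) * u + Ct (ZZ x) (tt x) * v - wr 0 : ℝ) : ℂ) := by rw [a2]
      have b2' : ((2 * pp x * q' : ℝ) : ℂ) =
        ((CZ (ZZ x) (tt x) * u' + Ct (ZZ x) (tt x) * v' - wi 0 : ℝ) : ℂ) := by rw [b2]
      push_cast at a2' b2'
      rw [hWs 0]
      linear_combination a2' + Complex.I * b2')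
    (by
      rw [hM 0, a3, b3, hWs 2]
      push_cast
      ring)
    (by
      rw [hM 1, a4, b4, hWs 3]
      push_cast
      ring)
    (by
      rw [hM 2, a5, b5]
      push_cast
      ring)
    (by
      rw [hM 3, a6, b6, hWs 4]
      push_cast
      ring)
    (by
      rw [hM 4, a7, b7, hWs 5]
      push_cast
      ring)
    (by
      rw [hM 5, a8, b8]
      push_cast
      ring)
  obtain ⟨k0, k1, k2, k3, k4, k5⟩ := key
  apply hW
  funext i
  fin_cases i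
  · exact k0
  · exact k1
  · exact k2
  · exact k3
  · exact k4
  · exact k5

lemma Jac_det_ne (x : Fin 6 → ℝ) : (Jac x).det ≠ 0 := by
  intro h
  have h1 : Polynomial.aeval (0 : ℂ) (Jac x).charpoly = 0 := by
    have h2 : Polynomial.eval 0 (Jac x).charpoly = 0 := by
      rw [Matrix.eval_charpoly]
      simp [Matrix.det_neg, h]
    have h3 : Polynomial.aeval (algebraMap ℝ ℂ 0) (Jac x).charpoly = 0 := by
      rw [Polynomial.aeval_algebraMap_apply, Polynomial.aeval_def, Algebra.algebraMap_self,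
        Polynomial.eval₂_id, h2, map_zero]
    rwa [map_zero] at h3
  have h2 := eig_bound x 0 h1
  rw [norm_zero] at h2
  norm_num at h2

/-- the point of the source above `(Z, s)` and the last four coordinates -/
noncomputable def pt (Z t y z1 z2 z3 : ℝ) : Fin 6 → ℝ :=
  ![t - 1 / t - Z ^ 2, Z * C Z t, y, z1, z2, z3]

lemma pt_spec {Z t : ℝ} (ht : 0 < t) (y z1 z2 z3 : ℝ) :
    ZZ (pt Z t y z1 z2 z3) = Z ∧ tt (pt Z t y z1 z2 z3) = t := by
  have h : Ψ ((pt Z t y z1 z2 z3) 0, (pt Z t y z1 z2 z3) 1) = (Z, Real.log t) := by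
    rw [← Ψ_Θ (Z, Real.log t)]
    congr 1
    simp [pt, Θ, Real.exp_log ht]
  constructor
  · unfold ZZ
    rw [h]
  · unfold tt ss
    rw [h]
    exact Real.exp_log ht

lemma not_injective_ff : ¬ Function.Injective ff := by
  intro hinj
  have ht : (0 : ℝ) < 3 := by norm_num
  obtain ⟨P, hP⟩ : ∃ P : ℝ, P = Pi 2 3 (3 - 1 / 3 - 2 ^ 2) := ⟨_, rfl⟩
  have hP' : Pi (-2) 3 (3 - 1 / 3 - 2 ^ 2) = P := by
    rw [hP]
    unfold Pi C
    norm_num
  obtain ⟨h1, h2⟩ := pt_spec (Z := 2) (t := 3) ht 0 0 0 0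
  obtain ⟨h3, h4⟩ := pt_spec (Z := -2) (t := 3) ht (8 * P) 0 (12 * P ^ 2) 0
  have h5 : pp (pt 2 3 0 0 0 0) = P := by
    unfold pp
    rw [h1, h2, hP]
    rfl
  have h6 : pp (pt (-2) 3 (8 * P) 0 (12 * P ^ 2) 0) = P := by
    unfold pp
    rw [h3, h4, ← hP']
    simp [pt]
  have h7 : ff (pt 2 3 0 0 0 0) = ff (pt (-2) 3 (8 * P) 0 (12 * P ^ 2) 0) := by
    unfold ff
    rw [h1, h2, h3, h4, h5, h6]
    funext i
    fin_cases i <;> simp [pt] <;> ring
  have h8 := hinj h7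
  have h9 : ZZ (pt 2 3 0 0 0 0) = ZZ (pt (-2) 3 (8 * P) 0 (12 * P ^ 2) 0) := by rw [h8]
  rw [h1, h3] at h9
  norm_num at h9

end Pool.Agent.Zk55.Ch
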